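import Pool.Agent.R26.Check111d

/-!
# A non-trivial `(3,1,1,1)`-factorisation of `K_12`

The factorisation consists of 4158 perfect matchings and has index 6; it is a union of 43 orbits of the
group of the maps `x ↦ a x + b` of the field with 11 elements (with a fixed twelfth point).
-/

set_option autoImplicit false

namespace Pool.Agent.Results.MP_5a4a69_co.Factorisation

open Finset Pool.Agent.R26.Code Pool.Agent.R26.Data111 Pool.Agent.R26.Check111

/-- `m` is a perfect matching of the complete graph with vertex set `{0, ..., 2n - 1}`: a set of edges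
(pairs of distinct vertices) such that every vertex is in exactly one of them. -/
def IsPM {n : ℕ} (m : Finset (Sym2 (Fin (2 * n)))) : Prop :=
  (∀ e ∈ m, ¬ e.IsDiag) ∧ ∀ v, ∃! e, e ∈ m ∧ v ∈ e

/-- The edges `e` and `f` are disjoint. -/
def DisjointEdges {n : ℕ} (e f : Sym2 (Fin (2 * n))) : Prop := ∀ v, ¬ (v ∈ e ∧ v ∈ f)

open Classical in
/-- `D` is an `(n-3,1,1,1)`-factorisation of index `c` of `K_2n`: a non-empty set of perfect matchings
such that any three pairwise disjoint edges lie together in exactly `c` members of `D`. -/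
def IsFactorisation (n c : ℕ) (D : Finset (Finset (Sym2 (Fin (2 * n))))) : Prop :=
  D.Nonempty ∧ (∀ m ∈ D, IsPM m) ∧ 0 < c ∧
    ∀ e₁ e₂ e₃ : Sym2 (Fin (2 * n)), ¬ e₁.IsDiag → ¬ e₂.IsDiag → ¬ e₃.IsDiag →
      DisjointEdges e₁ e₂ → DisjointEdges e₁ e₃ → DisjointEdges e₂ e₃ →
        (D.filter fun m => e₁ ∈ m ∧ e₂ ∈ m ∧ e₃ ∈ m).card = c

/-- The index of an edge in the list of edges. -/
lemma exists_index : ∀ a < 12, ∀ b < 12, a < b → ∃ i < 66, edgeA.getD i 0 = a ∧
    edgeB.getD i 0 = b := by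
  decide +kernel

lemma edgeE_eq : ∀ i < 66, edgeE.getD i 0 = 2 ^ edgeA.getD i 0 ||| 2 ^ edgeB.getD i 0 := by
  decide +kernel

/-- The test for an edge. -/
def tst (i : ℕ) (m : ℕ) : Bool := Nat.beq (p m (edgeA.getD i 0)) (edgeB.getD i 0)

/-- The ends of the edge with index `i`. -/
def endsOf (i v : ℕ) : Prop := v = edgeA.getD i 0 ∨ v = edgeB.getD i 0

lemma testBit_E (i : ℕ) (hi : i < 66) (v : ℕ) :
    (edgeE.getD i 0).testBit v = true ↔ endsOf i v := by
  rw [edgeE_eq i hi, Nat.testBit_lor, Nat.testBit_two_pow, Nat.testBit_two_pow, Bool.or_eq_true,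
    decide_eq_true_eq, decide_eq_true_eq, endsOf, eq_comm, @eq_comm _ (edgeB.getD i 0)]

lemma land_zero (i j : ℕ) (hi : i < 66) (hj : j < 66) (h : ∀ v, ¬ (endsOf i v ∧ endsOf j v)) :
    edgeE.getD i 0 &&& edgeE.getD j 0 = 0 := by
  apply Nat.eq_of_testBit_eq
  intro v
  rw [Nat.testBit_land, Nat.zero_testBit]
  by_contra hne
  rw [Bool.not_eq_false, Bool.and_eq_true, testBit_E i hi, testBit_E j hj] at hne
  exact h v hne

/-- The count for three edges with increasing indices. -/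
lemma count_lt (i j k : ℕ) (hi : i < 66) (hj : j < 66) (hk : k < 66) (hij : i < j) (hjk : j < k)
    (h1 : ∀ v, ¬ (endsOf i v ∧ endsOf j v)) (h2 : ∀ v, ¬ (endsOf i v ∧ endsOf k v))
    (h3 : ∀ v, ¬ (endsOf j v ∧ endsOf k v)) :
    codes.countP (fun m => tst i m && tst j m && tst k m) = 6 := by
  have h4 := land_zero i j hi hj h1
  have h5 := land_zero i k hi hk h2
  have h6 := land_zero j k hj hk h3
  refine count_idx i j k hi hj hk hij hjk h4 ?_
  rw [Nat.and_or_distrib_right, h5, h6]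
  rfl

lemma count_all (i j k : ℕ) (hi : i < 66) (hj : j < 66) (hk : k < 66)
    (h1 : ∀ v, ¬ (endsOf i v ∧ endsOf j v)) (h2 : ∀ v, ¬ (endsOf i v ∧ endsOf k v))
    (h3 : ∀ v, ¬ (endsOf j v ∧ endsOf k v)) :
    codes.countP (fun m => tst i m && tst j m && tst k m) = 6 := by
  have hsymm : ∀ {i j : ℕ}, (∀ v, ¬ (endsOf i v ∧ endsOf j v)) →
      ∀ v, ¬ (endsOf j v ∧ endsOf i v) := fun h v hv => h v ⟨hv.2, hv.1⟩
  have hne : ∀ {i j : ℕ}, (∀ v, ¬ (endsOf i v ∧ endsOf j v)) → i ≠ j := by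
    rintro i j h rfl
    exact h _ ⟨Or.inl rfl, Or.inl rfl⟩
  rcases lt_or_gt_of_ne (hne h1) with h12 | h12 <;>
    rcases lt_or_gt_of_ne (hne h3) with h23 | h23 <;>
    rcases lt_or_gt_of_ne (hne h2) with h13 | h13
  · exact count_lt i j k hi hj hk h12 h23 h1 h2 h3
  · omega
  · rw [← count_lt i k j hi hk hj h13 h23 h2 h1 (hsymm h3)]
    congr 1
    funext m
    cases tst i m <;> cases tst j m <;> cases tst k m <;> rfl
  · rw [← count_lt k i j hk hi hj h13 h12 (hsymm h2) (hsymm h3) h1]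
    congr 1
    funext m
    cases tst i m <;> cases tst j m <;> cases tst k m <;> rfl
  · rw [← count_lt j i k hj hi hk h12 h13 (hsymm h1) h3 h2]
    congr 1
    funext m
    cases tst i m <;> cases tst j m <;> cases tst k m <;> rfl
  · rw [← count_lt j k i hj hk hi h23 h13 h3 (hsymm h1) (hsymm h2)]
    congr 1
    funext m
    cases tst i m <;> cases tst j m <;> cases tst k m <;> rfl
  · omega
  · rw [← count_lt k j i hk hj hi h23 h12 (hsymm h3) (hsymm h2) (hsymm h1)]
    congr 1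
    funext m
    cases tst i m <;> cases tst j m <;> cases tst k m <;> rfl

/-- Every edge has an index. -/
lemma edge_index (e : Sym2 (Fin 12)) (he : ¬ e.IsDiag) : ∃ i < 66,
    (∀ v : Fin 12, v ∈ e ↔ endsOf i v.1) ∧
      (∀ v, endsOf i v → v < 12) ∧
      ∀ m, valid m = true → (tst i m = true ↔ e ∈ toM m) := by
  have key : ∀ a b : Fin 12, a < b → ∃ i < 66,
      (∀ v : Fin 12, v ∈ s(a, b) ↔ endsOf i v.1) ∧
      (∀ v, endsOf i v → v < 12) ∧
      ∀ m, valid m = true → (tst i m = true ↔ s(a, b) ∈ toM m) := by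
    intro a b hab
    obtain ⟨i, hi, h1, h2⟩ := exists_index a.1 a.2 b.1 b.2 hab
    refine ⟨i, hi, ?_, ?_, ?_⟩
    · intro v
      rw [Sym2.mem_iff, endsOf, h1, h2, Fin.ext_iff, Fin.ext_iff]
    · rintro v (h | h)
      · rw [h, h1]; exact a.2
      · rw [h, h2]; exact b.2
    · intro m hm
      rw [mem_toM hm, tst, h1, h2, Nat.beq_eq, ← pf_val hm, Fin.ext_iff]
  induction e using Sym2.inductionOn with
  | hf a b =>
    rw [Sym2.mk_isDiag_iff] at he
    rcases lt_or_gt_of_ne he with h | h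
    · exact key a b h
    · rw [Sym2.eq_swap]
      exact key b a h

/-- There is an integer `n ≥ 4` and a non-trivial `(n-3,1,1,1)`-factorisation of `K_2n`: for `n = 6`
there is one of index 6 which is not the set of all perfect matchings. -/
theorem result : ∃ n c : ℕ, 4 ≤ n ∧ ∃ D : Finset (Finset (Sym2 (Fin (2 * n)))),
    IsFactorisation n c D ∧ ∃ m, IsPM m ∧ m ∉ D := by
  classical
  refine ⟨6, 6, by norm_num, fam codes, ⟨?_, ?_, by norm_num, ?_⟩, toM 188606631453441, ?_, ?_⟩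
  · have h := count_idx 0 21 38 (by norm_num) (by norm_num) (by norm_num) (by norm_num)
      (by norm_num) (by decide +kernel) (by decide +kernel)
    have h1 : 0 < codes.countP (fun m => (Nat.beq (p m (edgeA.getD 0 0)) (edgeB.getD 0 0) &&
      Nat.beq (p m (edgeA.getD 21 0)) (edgeB.getD 21 0)) &&
      Nat.beq (p m (edgeA.getD 38 0)) (edgeB.getD 38 0)) := by rw [h]; norm_num
    rw [List.countP_pos_iff] at h1
    obtain ⟨m, hm, -⟩ := h1
    exact ⟨toM m, by simp only [fam, List.mem_toFinset, List.mem_map]; exact ⟨m, hm, rfl⟩⟩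
  · intro m hm
    simp only [fam, List.mem_toFinset, List.mem_map] at hm
    obtain ⟨x, hx, rfl⟩ := hm
    exact isPM (codes_valid x hx)
  · intro e₁ e₂ e₃ he₁ he₂ he₃ h12 h13 h23
    obtain ⟨i, hi, hi1, hi2, hi3⟩ := edge_index e₁ he₁
    obtain ⟨j, hj, hj1, hj2, hj3⟩ := edge_index e₂ he₂
    obtain ⟨k, hk, hk1, hk2, hk3⟩ := edge_index e₃ he₃
    have h := count_all i j k hi hj hk
      (fun v hv => h12 ⟨v, hi2 v hv.1⟩ ⟨(hi1 _).2 hv.1, (hj1 _).2 hv.2⟩)
      (fun v hv => h13 ⟨v, hi2 v hv.1⟩ ⟨(hi1 _).2 hv.1, (hk1 _).2 hv.2⟩)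
      (fun v hv => h23 ⟨v, hj2 v hv.1⟩ ⟨(hj1 _).2 hv.1, (hk1 _).2 hv.2⟩)
    refine Eq.trans (card_filter codes codes_nodup codes_valid
      (fun m => e₁ ∈ m ∧ e₂ ∈ m ∧ e₃ ∈ m) (fun m => tst i m && tst j m && tst k m) ?_) h
    intro m hm
    have hv := codes_valid m hm
    rw [Bool.and_eq_true, Bool.and_eq_true, hi3 m hv, hj3 m hv, hk3 m hv, and_assoc]
  · exact isPM (m := 188606631453441) (by decide +kernel)
  · intro hm
    simp only [fam, List.mem_toFinset, List.mem_map] at hm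
    obtain ⟨x, hx, he⟩ := hm
    have h1 := toM_inj (codes_valid x hx) (by decide +kernel) he
    subst h1
    revert hx
    unfold codes
    rw [List.mem_flatten]
    have h2 : (chunks.all fun l => !(l.any fun y => Nat.beq y 188606631453441)) = true := by
      decide +kernel
    rintro ⟨l, hl, hx⟩
    rw [List.all_eq_true] at h2
    have h3 := h2 l hl
    rw [Bool.not_eq_true', List.any_eq_false] at h3
    exact h3 _ hx (by decide)

end Pool.Agent.Results.MP_5a4a69_co.Factorisation
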